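import Pool.Agent.X157.Cert

set_option autoImplicit false

/-!
# A 7-dimensional polytope without vertex-facet assignment which is not a free join
-/

namespace Pool.Agent.Results.MP_7ca032_co.NotAJoin

open Set Pool.Agent.X157.CP Pool.Agent.X157.HRep Pool.Agent.X157.Join Pool.Agent.X157.Cert

/-- The vertices of `P`. -/
abbrev Vert {n : ℕ} (P : Set (Fin n → ℝ)) := P.extremePoints ℝ

/-- The facets of `P`: the faces of dimension `dim P - 1`. -/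
abbrev Facet {n : ℕ} (P : Set (Fin n → ℝ)) :=
  {F : Set (Fin n → ℝ) // IsExposed ℝ P F ∧ F.Nonempty ∧ dim F + 1 = dim P}

/-- `P` has a vertex-facet assignment: a matching in the non-incidence graph of vertices and facets
covering all the vertices or all the facets. -/
def HasAssignment {n : ℕ} (P : Set (Fin n → ℝ)) : Prop :=
  (∃ f : Vert P → Facet P, Function.Injective f ∧ ∀ v, (v : Fin n → ℝ) ∉ (f v).1) ∨
    ∃ g : Facet P → Vert P, Function.Injective g ∧ ∀ F, (g F : Fin n → ℝ) ∉ F.1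

/-- the 17 vertices -/
def V : List (List ℤ) :=
  [[1,0,1,0,0,0,0],
   [1,0,-1,0,0,0,0],
   [-1,0,1,0,0,0,0],
   [-1,0,-1,0,0,0,0],
   [0,1,1,0,0,0,0],
   [0,1,-1,0,0,0,0],
   [0,-1,1,0,0,0,0],
   [0,-1,-1,0,0,0,0],
   [1,1,1,0,0,0,0],
   [1,1,-1,0,0,0,0],
   [-1,-1,1,0,0,0,0],
   [-1,-1,-1,0,0,0,0],
   [0,0,0,1,0,0,1],
   [0,0,0,0,1,0,1],
   [0,0,0,-1,-1,0,1],
   [0,0,0,0,0,-1,1],
   [0,0,1,0,0,1,1]]

/-- the 17 inequalities `g ⬝ x ≤ c` -/
def H : List (List ℤ × ℤ) :=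
  [([1,0,0,0,0,0,1],1),
   ([-1,0,0,0,0,0,1],1),
   ([0,1,0,0,0,0,1],1),
   ([0,-1,0,0,0,0,1],1),
   ([1,-1,0,0,0,0,1],1),
   ([-1,1,0,0,0,0,1],1),
   ([0,0,0,1,1,-1,-1],0),
   ([0,0,0,-2,1,-1,-1],0),
   ([0,0,0,1,-2,-1,-1],0),
   ([0,0,0,1,1,1,-1],0),
   ([0,0,0,-2,1,1,-1],0),
   ([0,0,0,1,-2,1,-1],0),
   ([0,0,-1,0,0,0,1],1),
   ([0,0,-1,0,0,1,1],1),
   ([0,0,2,1,1,-1,1],2),
   ([0,0,2,-2,1,-1,1],2),
   ([0,0,2,1,-2,-1,1],2)]

/-- functionals exposing the vertices -/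
def VC : List (List ℤ × List ℤ) :=
  [([1,0,1,0,0,0,0],[2,-1,6,0,0,-3,-1]),
   ([1,0,-1,0,0,0,0],[2,-1,-2,0,0,1,-2]),
   ([-1,0,1,0,0,0,0],[-2,1,6,0,0,-3,-1]),
   ([-1,0,-1,0,0,0,0],[-2,1,-2,0,0,1,-2]),
   ([0,1,1,0,0,0,0],[-1,2,6,0,0,-3,-1]),
   ([0,1,-1,0,0,0,0],[-1,2,-2,0,0,1,-2]),
   ([0,-1,1,0,0,0,0],[1,-2,6,0,0,-3,-1]),
   ([0,-1,-1,0,0,0,0],[1,-2,-2,0,0,1,-2]),
   ([1,1,1,0,0,0,0],[1,1,6,0,0,-3,-1]),
   ([1,1,-1,0,0,0,0],[1,1,-2,0,0,1,-2]),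
   ([-1,-1,1,0,0,0,0],[-1,-1,6,0,0,-3,-1]),
   ([-1,-1,-1,0,0,0,0],[-1,-1,-2,0,0,1,-2]),
   ([0,0,0,1,0,0,1],[0,0,2,6,-3,-1,6]),
   ([0,0,0,0,1,0,1],[0,0,2,-3,6,-1,6]),
   ([0,0,0,-1,-1,0,1],[0,0,2,-3,-3,-1,6]),
   ([0,0,0,0,0,-1,1],[0,0,5,0,0,-6,7]),
   ([0,0,1,0,0,1,1],[0,0,5,0,0,1,7])]

/-- affinely independent vertices of the facets, with dual functionals -/
def FCs : List ((List ℤ × ℤ) × List ℤ × List (List ℤ × List ℤ)) :=
  [(([1,0,0,0,0,0,1],1),[1,0,1,0,0,0,0],[([1,0,-1,0,0,0,0],[1,0,-2,0,0,0,-1]),([1,1,1,0,0,0,0],[0,1,0,0,0,0,0]),([0,0,0,1,0,0,1],[-1,0,0,4,-2,2,1]),([0,0,0,0,1,0,1],[-1,0,0,-2,4,2,1]),([0,0,0,-1,-1,0,1],[-1,0,0,-2,-2,2,1]),([0,0,0,0,0,-1,1],[0,0,0,0,0,-1,0])]),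
   (([-1,0,0,0,0,0,1],1),[-1,0,1,0,0,0,0],[([-1,0,-1,0,0,0,0],[-1,0,-2,0,0,0,-1]),([-1,-1,1,0,0,0,0],[0,-1,0,0,0,0,0]),([0,0,0,1,0,0,1],[1,0,0,4,-2,2,1]),([0,0,0,0,1,0,1],[1,0,0,-2,4,2,1]),([0,0,0,-1,-1,0,1],[1,0,0,-2,-2,2,1]),([0,0,0,0,0,-1,1],[0,0,0,0,0,-1,0])]),
   (([0,1,0,0,0,0,1],1),[0,1,1,0,0,0,0],[([0,1,-1,0,0,0,0],[0,1,-2,0,0,0,-1]),([1,1,1,0,0,0,0],[1,0,0,0,0,0,0]),([0,0,0,1,0,0,1],[0,-1,0,4,-2,2,1]),([0,0,0,0,1,0,1],[0,-1,0,-2,4,2,1]),([0,0,0,-1,-1,0,1],[0,-1,0,-2,-2,2,1]),([0,0,0,0,0,-1,1],[0,0,0,0,0,-1,0])]),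
   (([0,-1,0,0,0,0,1],1),[0,-1,1,0,0,0,0],[([0,-1,-1,0,0,0,0],[0,-1,-2,0,0,0,-1]),([-1,-1,1,0,0,0,0],[-1,0,0,0,0,0,0]),([0,0,0,1,0,0,1],[0,1,0,4,-2,2,1]),([0,0,0,0,1,0,1],[0,1,0,-2,4,2,1]),([0,0,0,-1,-1,0,1],[0,1,0,-2,-2,2,1]),([0,0,0,0,0,-1,1],[0,0,0,0,0,-1,0])]),
   (([1,-1,0,0,0,0,1],1),[1,0,1,0,0,0,0],[([1,0,-1,0,0,0,0],[1,-1,-3,0,0,0,-2]),([0,-1,1,0,0,0,0],[-1,-2,0,0,0,0,-1]),([0,0,0,1,0,0,1],[-1,1,0,6,-3,3,2]),([0,0,0,0,1,0,1],[-1,1,0,-3,6,3,2]),([0,0,0,-1,-1,0,1],[-1,1,0,-3,-3,3,2]),([0,0,0,0,0,-1,1],[0,0,0,0,0,-1,0])]),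
   (([-1,1,0,0,0,0,1],1),[-1,0,1,0,0,0,0],[([-1,0,-1,0,0,0,0],[-1,1,-3,0,0,0,-2]),([0,1,1,0,0,0,0],[1,2,0,0,0,0,-1]),([0,0,0,1,0,0,1],[1,-1,0,6,-3,3,2]),([0,0,0,0,1,0,1],[1,-1,0,-3,6,3,2]),([0,0,0,-1,-1,0,1],[1,-1,0,-3,-3,3,2]),([0,0,0,0,0,-1,1],[0,0,0,0,0,-1,0])]),
   (([0,0,0,1,1,-1,-1],0),[1,0,1,0,0,0,0],[([1,0,-1,0,0,0,0],[0,0,-4,-1,-1,1,-3]),([-1,0,1,0,0,0,0],[-4,-4,0,-1,-1,1,-3]),([0,1,1,0,0,0,0],[0,1,0,0,0,0,0]),([0,0,0,1,0,0,1],[0,0,0,3,-1,1,1]),([0,0,0,0,1,0,1],[0,0,0,-1,3,1,1]),([0,0,0,0,0,-1,1],[0,0,0,-1,-1,-3,1])]),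
   (([0,0,0,-2,1,-1,-1],0),[1,0,1,0,0,0,0],[([1,0,-1,0,0,0,0],[0,0,-7,2,-1,1,-6]),([-1,0,1,0,0,0,0],[-7,-7,0,2,-1,1,-6]),([0,1,1,0,0,0,0],[0,1,0,0,0,0,0]),([0,0,0,0,1,0,1],[0,0,0,-1,4,3,3]),([0,0,0,-1,-1,0,1],[0,0,0,-3,-2,2,2]),([0,0,0,0,0,-1,1],[0,0,0,2,-1,-6,1])]),
   (([0,0,0,1,-2,-1,-1],0),[1,0,1,0,0,0,0],[([1,0,-1,0,0,0,0],[0,0,-7,-1,2,1,-6]),([-1,0,1,0,0,0,0],[-7,-7,0,-1,2,1,-6]),([0,1,1,0,0,0,0],[0,1,0,0,0,0,0]),([0,0,0,1,0,0,1],[0,0,0,4,-1,3,3]),([0,0,0,-1,-1,0,1],[0,0,0,-2,-3,2,2]),([0,0,0,0,0,-1,1],[0,0,0,-1,2,-6,1])]),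
   (([0,0,0,1,1,1,-1],0),[1,0,1,0,0,0,0],[([1,0,-1,0,0,0,0],[0,0,-2,-1,-1,1,-1]),([-1,0,1,0,0,0,0],[-4,-4,0,-1,-1,-1,-3]),([0,1,1,0,0,0,0],[0,1,0,0,0,0,0]),([0,0,0,1,0,0,1],[0,0,0,3,-1,-1,1]),([0,0,0,0,1,0,1],[0,0,0,-1,3,-1,1]),([0,0,1,0,0,1,1],[0,0,0,-1,-1,3,1])]),
   (([0,0,0,-2,1,1,-1],0),[1,0,1,0,0,0,0],[([1,0,-1,0,0,0,0],[0,0,-7,4,-2,5,-5]),([-1,0,1,0,0,0,0],[-7,-7,0,2,-1,-1,-6]),([0,1,1,0,0,0,0],[0,1,0,0,0,0,0]),([0,0,0,0,1,0,1],[0,0,0,-1,4,-3,3]),([0,0,0,-1,-1,0,1],[0,0,0,-3,-2,-2,2]),([0,0,1,0,0,1,1],[0,0,0,2,-1,6,1])]),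
   (([0,0,0,1,-2,1,-1],0),[1,0,1,0,0,0,0],[([1,0,-1,0,0,0,0],[0,0,-7,-2,4,5,-5]),([-1,0,1,0,0,0,0],[-7,-7,0,-1,2,-1,-6]),([0,1,1,0,0,0,0],[0,1,0,0,0,0,0]),([0,0,0,1,0,0,1],[0,0,0,4,-1,-3,3]),([0,0,0,-1,-1,0,1],[0,0,0,-2,-3,-2,2]),([0,0,1,0,0,1,1],[0,0,0,-1,2,6,1])]),
   (([0,0,-1,0,0,0,1],1),[1,0,-1,0,0,0,0],[([-1,0,-1,0,0,0,0],[-2,-2,-1,0,0,0,-1]),([0,1,-1,0,0,0,0],[0,1,0,0,0,0,0]),([0,0,0,1,0,0,1],[0,0,1,4,-2,2,1]),([0,0,0,0,1,0,1],[0,0,1,-2,4,2,1]),([0,0,0,-1,-1,0,1],[0,0,1,-2,-2,2,1]),([0,0,0,0,0,-1,1],[0,0,0,0,0,-1,0])]),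
   (([0,0,-1,0,0,1,1],1),[1,0,-1,0,0,0,0],[([-1,0,-1,0,0,0,0],[-3,-3,-1,0,0,1,-2]),([0,1,-1,0,0,0,0],[0,1,0,0,0,0,0]),([0,0,0,1,0,0,1],[0,0,0,2,-1,-1,1]),([0,0,0,0,1,0,1],[0,0,0,-1,2,-1,1]),([0,0,0,-1,-1,0,1],[0,0,0,-1,-1,-1,1]),([0,0,1,0,0,1,1],[0,0,1,0,0,2,-1])]),
   (([0,0,2,1,1,-1,1],2),[1,0,1,0,0,0,0],[([-1,0,1,0,0,0,0],[-8,-8,2,1,1,-1,-7]),([0,1,1,0,0,0,0],[0,1,0,0,0,0,0]),([0,0,0,1,0,0,1],[0,0,-2,7,-1,1,-1]),([0,0,0,0,1,0,1],[0,0,-2,-1,7,1,-1]),([0,0,0,0,0,-1,1],[0,0,0,-1,-1,-1,1]),([0,0,1,0,0,1,1],[0,0,2,-3,-3,3,5])]),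
   (([0,0,2,-2,1,-1,1],2),[1,0,1,0,0,0,0],[([-1,0,1,0,0,0,0],[-11,-11,2,-2,1,-1,-10]),([0,1,1,0,0,0,0],[0,1,0,0,0,0,0]),([0,0,0,0,1,0,1],[0,0,-6,-5,8,3,-3]),([0,0,0,-1,-1,0,1],[0,0,-4,-7,-2,2,-2]),([0,0,0,0,0,-1,1],[0,0,3,8,-4,-7,7]),([0,0,1,0,0,1,1],[0,0,5,6,-3,3,8])]),
   (([0,0,2,1,-2,-1,1],2),[1,0,1,0,0,0,0],[([-1,0,1,0,0,0,0],[-11,-11,2,1,-2,-1,-10]),([0,1,1,0,0,0,0],[0,1,0,0,0,0,0]),([0,0,0,1,0,0,1],[0,0,-6,8,-5,3,-3]),([0,0,0,-1,-1,0,1],[0,0,-4,-2,-7,2,-2]),([0,0,0,0,0,-1,1],[0,0,3,-4,8,-7,7]),([0,0,1,0,0,1,1],[0,0,5,-3,6,3,8])])]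

lemma V_len : ∀ v ∈ V, v.length ≤ 7 := by decide

lemma H_len : ∀ h ∈ H, h.1.length ≤ 7 := by decide

lemma FCs_ok : ∀ e ∈ FCs, chkFacet 7 V e = true := by decide +kernel

lemma H_of_FCs : ∀ h ∈ H, ∃ e ∈ FCs, e.1 = h := by decide +kernel

lemma VC_ok : ∀ v ∈ V, ∃ e ∈ VC, e.1 = v ∧ e.2.length ≤ 7 ∧
    ∀ u ∈ V, u = v ∨ dotZ e.2 u < dotZ e.2 v := by decide +kernel

/-- the polytope -/
noncomputable def P : Set (Fin 7 → ℝ) := hullL 7 V

lemma isPoly_P : IsPoly P := isPoly_hullL (by decide)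

lemma facet_P : ∀ h ∈ H, (∀ v ∈ V, dotZ h.1 v ≤ h.2) ∧ dim P = 7 ∧
    IsExposed ℝ P {x | x ∈ P ∧ lin 7 h.1 x = (h.2 : ℝ)} ∧
    {x | x ∈ P ∧ lin 7 h.1 x = (h.2 : ℝ)}.Nonempty ∧
    dim {x | x ∈ P ∧ lin 7 h.1 x = (h.2 : ℝ)} + 1 = 7 := by
  intro h hh
  obtain ⟨e, he, rfl⟩ := H_of_FCs h hh
  exact facet_cert V_len (FCs_ok e he)

lemma dim_P : dim P = 7 := (facet_P _ (List.mem_cons_self)).2.1

lemma vertex_P : ∀ v ∈ V, toR 7 v ∈ P.extremePoints ℝ := by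
  intro v hv
  obtain ⟨e, _, _, h2, h3⟩ := VC_ok v hv
  exact extreme_hullL V_len hv h2 h3

/-! ### The inequalities describe P -/

lemma comb3 {C : Set (Fin 7 → ℝ)} (hC : Convex ℝ C) {u v w : Fin 7 → ℝ} (hu : u ∈ C) (hv : v ∈ C)
    (hw : w ∈ C) {a b c : ℝ} (ha : 0 ≤ a) (hb : 0 ≤ b) (hc : 0 ≤ c) (h : a + b + c = 1) :
    a • u + b • v + c • w ∈ C := by
  have h1 : a • u + b • v + c • w = ∑ i : Fin 3, (![a, b, c] i) • (![u, v, w] i) := by
    rw [Fin.sum_univ_three]; rfl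
  rw [h1]
  apply hC.sum_mem
  · intro i _; fin_cases i <;> assumption
  · rw [Fin.sum_univ_three]; exact h
  · intro i _; fin_cases i <;> assumption

lemma comb6 {C : Set (Fin 7 → ℝ)} (hC : Convex ℝ C) {u v w x y z : Fin 7 → ℝ} (hu : u ∈ C)
    (hv : v ∈ C) (hw : w ∈ C) (hx : x ∈ C) (hy : y ∈ C) (hz : z ∈ C) {a b c d e f : ℝ}
    (ha : 0 ≤ a) (hb : 0 ≤ b) (hc : 0 ≤ c) (hd : 0 ≤ d) (he : 0 ≤ e) (hf : 0 ≤ f)
    (h : a + b + c + d + e + f = 1) :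
    a • u + b • v + c • w + d • x + e • y + f • z ∈ C := by
  have h1 : a • u + b • v + c • w + d • x + e • y + f • z =
      ∑ i : Fin 6, (![a, b, c, d, e, f] i) • (![u, v, w, x, y, z] i) := by
    rw [Fin.sum_univ_six]; rfl
  rw [h1]
  apply hC.sum_mem
  · intro i _; fin_cases i <;> assumption
  · rw [Fin.sum_univ_six]; exact h
  · intro i _; fin_cases i <;> assumption

lemma convex_P : Convex ℝ P := convex_convexHull ℝ _

lemma toR7 (a b c d e f g : ℤ) : toR 7 [a, b, c, d, e, f, g] =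
    ![(a : ℝ), b, c, d, e, f, g] := by
  funext i
  fin_cases i <;> rfl

/-- the hexagon at height `ε` -/
lemma hexagon (ε : ℤ) (hε : ε = 1 ∨ ε = -1) {x y : ℝ} (h1 : |x| ≤ 1) (h2 : |y| ≤ 1)
    (h3 : |x - y| ≤ 1) : ![x, y, (ε : ℝ), 0, 0, 0, 0] ∈ P := by
  have m1 : ![1, 0, (ε : ℝ), 0, 0, 0, 0] ∈ P := by
    have : toR 7 [1, 0, ε, 0, 0, 0, 0] ∈ P := mem_hullL (by
      rcases hε with rfl | rfl <;> decide)
    rw [toR7] at this
    simpa using this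
  have m2 : ![-1, 0, (ε : ℝ), 0, 0, 0, 0] ∈ P := by
    have : toR 7 [-1, 0, ε, 0, 0, 0, 0] ∈ P := mem_hullL (by
      rcases hε with rfl | rfl <;> decide)
    rw [toR7] at this
    simpa using this
  have m3 : ![0, 1, (ε : ℝ), 0, 0, 0, 0] ∈ P := by
    have : toR 7 [0, 1, ε, 0, 0, 0, 0] ∈ P := mem_hullL (by
      rcases hε with rfl | rfl <;> decide)
    rw [toR7] at this
    simpa using this
  have m4 : ![0, -1, (ε : ℝ), 0, 0, 0, 0] ∈ P := by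
    have : toR 7 [0, -1, ε, 0, 0, 0, 0] ∈ P := mem_hullL (by
      rcases hε with rfl | rfl <;> decide)
    rw [toR7] at this
    simpa using this
  have m5 : ![1, 1, (ε : ℝ), 0, 0, 0, 0] ∈ P := by
    have : toR 7 [1, 1, ε, 0, 0, 0, 0] ∈ P := mem_hullL (by
      rcases hε with rfl | rfl <;> decide)
    rw [toR7] at this
    simpa using this
  have m6 : ![-1, -1, (ε : ℝ), 0, 0, 0, 0] ∈ P := by
    have : toR 7 [-1, -1, ε, 0, 0, 0, 0] ∈ P := mem_hullL (by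
      rcases hε with rfl | rfl <;> decide)
    rw [toR7] at this
    simpa using this
  have m0 : ![0, 0, (ε : ℝ), 0, 0, 0, 0] ∈ P := by
    have h := comb3 convex_P m1 m2 m1 (a := 1 / 2) (b := 1 / 2) (c := 0) (by norm_num)
      (by norm_num) le_rfl (by norm_num)
    convert h using 1
    funext i
    fin_cases i <;> simp <;> ring
  obtain ⟨x1, x2⟩ := abs_le.mp h1
  obtain ⟨y1, y2⟩ := abs_le.mp h2
  obtain ⟨z1, z2⟩ := abs_le.mp h3
  rcases le_total 0 x with hx | hx <;> rcases le_total 0 y with hy | hy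
  · rcases le_total x y with hxy | hxy
    · have h := comb3 convex_P m3 m5 m0 (a := y - x) (b := x) (c := 1 - y) (by linarith)
        (by linarith) (by linarith) (by ring)
      convert h using 1
      funext i
      fin_cases i <;> simp <;> ring
    · have h := comb3 convex_P m1 m5 m0 (a := x - y) (b := y) (c := 1 - x) (by linarith)
        (by linarith) (by linarith) (by ring)
      convert h using 1
      funext i
      fin_cases i <;> simp <;> ring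
  · have h := comb3 convex_P m1 m4 m0 (a := x) (b := -y) (c := 1 - x + y) (by linarith)
      (by linarith) (by linarith) (by ring)
    convert h using 1
    funext i
    fin_cases i <;> simp <;> ring
  · have h := comb3 convex_P m3 m2 m0 (a := y) (b := -x) (c := 1 - y + x) (by linarith)
      (by linarith) (by linarith) (by ring)
    convert h using 1
    funext i
    fin_cases i <;> simp <;> ring
  · rcases le_total x y with hxy | hxy
    · have h := comb3 convex_P m6 m2 m0 (a := -y) (b := y - x) (c := 1 + x) (by linarith)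
        (by linarith) (by linarith) (by ring)
      convert h using 1
      funext i
      fin_cases i <;> simp <;> ring
    · have h := comb3 convex_P m6 m4 m0 (a := -x) (b := x - y) (c := 1 + y) (by linarith)
        (by linarith) (by linarith) (by ring)
      convert h using 1
      funext i
      fin_cases i <;> simp <;> ring

lemma prism {x y z : ℝ} (h1 : |x| ≤ 1) (h2 : |y| ≤ 1) (h3 : |x - y| ≤ 1) (h4 : |z| ≤ 1) :
    ![x, y, z, 0, 0, 0, 0] ∈ P := by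
  have m1 := hexagon 1 (Or.inl rfl) h1 h2 h3
  have m2 := hexagon (-1) (Or.inr rfl) h1 h2 h3
  obtain ⟨z1, z2⟩ := abs_le.mp h4
  have h := comb3 convex_P m1 m2 m1 (a := (1 + z) / 2) (b := (1 - z) / 2) (c := 0) (by linarith)
      (by linarith) le_rfl (by ring)
  convert h using 1
  funext i
  fin_cases i <;> simp <;> ring

lemma lin7 (a b c d e f g : ℤ) (x : Fin 7 → ℝ) : lin 7 [a, b, c, d, e, f, g] x =
    a * x 0 + b * x 1 + c * x 2 + d * x 3 + e * x 4 + f * x 5 + g * x 6 := by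
  rw [lin_apply, toR7, Fin.sum_univ_seven]
  rfl

lemma mul_div_of_zero {a m : ℝ} (h : m = 0 → a = 0) : m * (a / m) = a := by
  by_cases hm : m = 0
  · rw [hm, h hm]; simp
  · field_simp

lemma abs_div_le {a m : ℝ} (hm : 0 ≤ m) (h : |a| ≤ m) : |a / m| ≤ 1 := by
  rw [abs_div, abs_of_nonneg hm]
  exact div_le_one_of_le₀ h hm

lemma mem_P_of_ineq {X : Fin 7 → ℝ} (h : ∀ k ∈ H, lin 7 k.1 X ≤ (k.2 : ℝ)) : X ∈ P := by
  simp only [H, List.forall_mem_cons, lin7] at h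
  push_cast at h
  obtain ⟨h1, h2, h3, h4, h5, h6, h7, h8, h9, h10, h11, h12, h13, h14, h15, h16, h17, -⟩ := h
  set x := X 0
  set y := X 1
  set z := X 2
  set p := X 3
  set q := X 4
  set r := X 5
  set s := X 6
  set m := 1 - s with hm
  have hm0 : 0 ≤ m := by linarith
  set τ := max 0 (max r (z - m)) with hτ
  have t1 : 0 ≤ τ := le_max_left _ _
  have t2 : r ≤ τ := le_trans (le_max_left _ _) (le_max_right _ _)
  have t3 : z - m ≤ τ := le_trans (le_max_right _ _) (le_max_right _ _)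
  have t4 : τ ≤ z + m := by
    apply max_le (by linarith) (max_le (by linarith) (by linarith))
  have t5 : 2 * τ ≤ s + r - p - q := by
    have : τ ≤ (s + r - p - q) / 2 :=
      max_le (by linarith) (max_le (by linarith) (by linarith))
    linarith
  have t6 : 2 * τ ≤ s + r + 2 * p - q := by
    have : τ ≤ (s + r + 2 * p - q) / 2 :=
      max_le (by linarith) (max_le (by linarith) (by linarith))
    linarith
  have t7 : 2 * τ ≤ s + r - p + 2 * q := by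
    have : τ ≤ (s + r - p + 2 * q) / 2 :=
      max_le (by linarith) (max_le (by linarith) (by linarith))
    linarith
  have hx : |x| ≤ m := abs_le.mpr ⟨by linarith, by linarith⟩
  have hy : |y| ≤ m := abs_le.mpr ⟨by linarith, by linarith⟩
  have hxy : |x - y| ≤ m := abs_le.mpr ⟨by linarith, by linarith⟩
  have hz : |z - τ| ≤ m := abs_le.mpr ⟨by linarith, by linarith⟩
  have mp := prism (abs_div_le hm0 hx) (abs_div_le hm0 hy)
    (by rw [← sub_div]; exact abs_div_le hm0 hxy) (abs_div_le hm0 hz)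
  have mw1 : toR 7 [0, 0, 0, 1, 0, 0, 1] ∈ P := mem_hullL (by decide)
  have mw2 : toR 7 [0, 0, 0, 0, 1, 0, 1] ∈ P := mem_hullL (by decide)
  have mw3 : toR 7 [0, 0, 0, -1, -1, 0, 1] ∈ P := mem_hullL (by decide)
  have mb : toR 7 [0, 0, 0, 0, 0, -1, 1] ∈ P := mem_hullL (by decide)
  have mt : toR 7 [0, 0, 1, 0, 0, 1, 1] ∈ P := mem_hullL (by decide)
  rw [toR7] at mw1 mw2 mw3 mb mt
  have e := comb6 convex_P mp mw1 mw2 mw3 mb mt (a := m) (b := (s - 2 * τ + r - p - q) / 3 + p)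
    (c := (s - 2 * τ + r - p - q) / 3 + q) (d := (s - 2 * τ + r - p - q) / 3) (e := τ - r)
    (f := τ) hm0 (by linarith) (by linarith) (by linarith) (by linarith) t1 (by rw [hm]; ring)
  have z1 : ∀ a : ℝ, |a| ≤ m → m * (a / m) = a := fun a ha => mul_div_of_zero fun h0 => by
    rw [h0] at ha
    exact abs_nonpos_iff.mp ha
  have ex := z1 x hx
  have ey := z1 y hy
  have ez := z1 _ hz
  convert e using 1
  funext i
  fin_cases i
  · simp [ex]; rfl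
  · simp [ey]; rfl
  · simp [ez]; rfl
  · simp; show p = _; ring
  · simp; show q = _; ring
  · simp; show r = _; ring
  · simp; show s = _; ring

/-- the polytope as a polyhedron -/
lemma P_eq : P = {x | ∀ k : Fin H.length, lin 7 (H.get k).1 x ≤ ((H.get k).2 : ℝ)} := by
  ext x
  constructor
  · intro hx k
    have hk := List.get_mem H k
    exact hullL_le V_len (H_len _ hk) (facet_P _ hk).1 hx
  · intro hx
    apply mem_P_of_ineq
    intro k hk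
    obtain ⟨i, rfl⟩ := List.get_of_mem hk
    exact hx i

/-- every facet is given by one of the inequalities -/
lemma facet_mem {F : Set (Fin 7 → ℝ)} (hF : IsExposed ℝ P F) (hne : F.Nonempty)
    (hd : dim F + 1 = dim P) : ∃ h ∈ H, F = {x | x ∈ P ∧ lin 7 h.1 x = (h.2 : ℝ)} := by
  have hr : Module.finrank ℝ (Fin 7 → ℝ) = 7 := Module.finrank_fin_fun ℝ
  obtain ⟨k, hk⟩ := facet_of_hrep (fun k : Fin H.length => lin 7 (H.get k).1)
    (fun k => ((H.get k).2 : ℝ)) P_eq (by rw [hr]; exact dim_P) hF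
    ((hd.trans dim_P).trans hr.symm) hne
  exact ⟨H.get k, List.get_mem H k, hk⟩

/-- the facet of an inequality -/
noncomputable def facetOf (k : Fin 17) : Facet P :=
  ⟨{x | x ∈ P ∧ lin 7 (H.get k).1 x = ((H.get k).2 : ℝ)},
    (facet_P _ (List.get_mem H k)).2.2.1, (facet_P _ (List.get_mem H k)).2.2.2.1,
    (facet_P _ (List.get_mem H k)).2.2.2.2.trans dim_P.symm⟩

/-- the vertices -/
noncomputable def vertOf (i : Fin 17) : Vert P := ⟨toR 7 (V.get i), vertex_P _ (List.get_mem V i)⟩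

lemma mem_facetOf (i k : Fin 17) : (vertOf i : Fin 7 → ℝ) ∈ (facetOf k).1 ↔
    dotZ (H.get k).1 (V.get i) = (H.get k).2 := by
  show (toR 7 (V.get i) ∈ P ∧ lin 7 (H.get k).1 (toR 7 (V.get i)) = ((H.get k).2 : ℝ)) ↔ _
  rw [lin_toR 7 _ _ (H_len _ (List.get_mem H k)) (V_len _ (List.get_mem V i))]
  constructor
  · rintro ⟨_, h⟩
    exact_mod_cast h
  · intro h
    exact ⟨mem_hullL (List.get_mem V i), by exact_mod_cast h⟩

lemma facetOf_surj (F : Facet P) : ∃ k, F = facetOf k := by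
  obtain ⟨h, hh, hF⟩ := facet_mem F.2.1 F.2.2.1 F.2.2.2
  obtain ⟨k, rfl⟩ := List.get_of_mem hh
  exact ⟨k, Subtype.ext hF⟩

lemma vertOf_surj (v : Vert P) : ∃ i, v = vertOf i := by
  have h1 : (v : Fin 7 → ℝ) ∈ {x | ∃ v ∈ V, x = toR 7 v} := extremePoints_convexHull_subset v.2
  obtain ⟨u, hu, he⟩ := h1
  obtain ⟨i, rfl⟩ := List.get_of_mem hu
  exact ⟨i, Subtype.ext he⟩

/-- incidences -/
def inc (i k : Fin 17) : Bool := dotZ (H.get k).1 (V.get i) == (H.get k).2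

lemma mem_iff (i k : Fin 17) : (vertOf i : Fin 7 → ℝ) ∈ (facetOf k).1 ↔ inc i k = true := by
  rw [mem_facetOf]
  unfold inc
  rw [beq_iff_eq]

lemma inc_dist : ∀ i j : Fin 17, i ≠ j → ∃ k, inc i k ≠ inc j k := by decide +kernel

lemma inc_dist' : ∀ k l : Fin 17, k ≠ l → ∃ i, inc i k ≠ inc i l := by decide +kernel

lemma vertOf_inj : Function.Injective vertOf := by
  intro i j hij
  by_contra hne
  obtain ⟨k, hk⟩ := inc_dist i j hne
  apply hk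
  rw [Bool.eq_iff_iff, ← mem_iff, ← mem_iff, hij]

lemma facetOf_inj : Function.Injective facetOf := by
  intro k l hkl
  by_contra hne
  obtain ⟨i, hi⟩ := inc_dist' k l hne
  apply hi
  rw [Bool.eq_iff_iff, ← mem_iff, ← mem_iff, hkl]

/-- the first twelve vertices lie in the facets 6 to 11 -/
lemma inc_sigma : ∀ i k : Fin 17, i.val < 12 → 6 ≤ k.val → k.val < 12 → inc i k = true := by
  decide +kernel

lemma exists_fin11 (N : ℕ) (h : N < 17) (h' : N < 6 ∨ 12 ≤ N) :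
    ∃ j : Fin 11, N = if j.val < 6 then j.val else j.val + 6 := by
  rcases h' with h' | h'
  · exact ⟨⟨N, by omega⟩, (if_pos h').symm⟩
  · refine ⟨⟨N - 6, by omega⟩, ?_⟩
    have h1 : ¬ (N - 6 < 6) := by omega
    show N = if N - 6 < 6 then N - 6 else N - 6 + 6
    rw [if_neg h1]
    omega

theorem no_assignment : ¬ HasAssignment P := by
  rintro (⟨f, hf, hfn⟩ | ⟨g, hg, hgn⟩)
  · -- twelve vertices are mapped to eleven facets
    choose k hk using fun v => facetOf_surj (f v)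
    have h1 : ∀ i : Fin 12, (k (vertOf (Fin.castLE (by omega) i))).val < 6 ∨
        12 ≤ (k (vertOf (Fin.castLE (by omega) i))).val := by
      intro i
      by_contra hcon
      push Not at hcon
      have h2 := inc_sigma (Fin.castLE (by omega) i) (k (vertOf (Fin.castLE (by omega) i)))
        i.isLt hcon.1 hcon.2
      rw [← mem_iff, ← hk] at h2
      exact hfn _ h2
    have h2 : ∀ i : Fin 12, ∃ j : Fin 11,
        (k (vertOf (Fin.castLE (by omega) i))).val = if j.val < 6 then j.val else j.val + 6 := by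
      intro i
      exact exists_fin11 _ (k (vertOf (Fin.castLE (by omega) i))).isLt (h1 i)
    choose j hj using h2
    have hinj : Function.Injective j := by
      intro a b hab
      have h3 := hj a
      rw [hab, ← hj b] at h3
      have h4 := Fin.ext h3
      have h5 : f (vertOf (Fin.castLE (by omega) a)) = f (vertOf (Fin.castLE (by omega) b)) := by
        rw [hk, hk, h4]
      have h6 := vertOf_inj (hf h5)
      exact Fin.castLE_injective _ h6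
    have := Fintype.card_le_of_injective j hinj
    simp at this
  · -- six facets are mapped to five vertices
    choose i hi using fun F => vertOf_surj (g F)
    have h1 : ∀ k : Fin 6, 12 ≤ (i (facetOf (Fin.castLE (by omega) (k.natAdd 6)))).val := by
      intro k
      by_contra hcon
      push Not at hcon
      have h2 := inc_sigma (i (facetOf (Fin.castLE (by omega) (k.natAdd 6))))
        (Fin.castLE (by omega) (k.natAdd 6)) hcon (by simp) (by simp; omega)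
      rw [← mem_iff, ← hi] at h2
      exact hgn _ h2
    have h2 : ∀ k : Fin 6, ∃ j : Fin 5,
        (i (facetOf (Fin.castLE (by omega) (k.natAdd 6)))).val = j.val + 12 := by
      intro k
      have h3 := h1 k
      have h4 := (i (facetOf (Fin.castLE (by omega) (k.natAdd 6)))).isLt
      refine ⟨⟨(i (facetOf (Fin.castLE (by omega) (k.natAdd 6)))).val - 12, by omega⟩, ?_⟩
      show _ = _ - 12 + 12
      omega
    choose j hj using h2
    have hinj : Function.Injective j := by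
      intro a b hab
      have h3 := hj a
      rw [hab, ← hj b] at h3
      have h4 := Fin.ext h3
      have h5 : g (facetOf (Fin.castLE (by omega) (a.natAdd 6))) =
          g (facetOf (Fin.castLE (by omega) (b.natAdd 6))) := by
        rw [hi, hi, h4]
      have h6 := facetOf_inj (hg h5)
      have h7 := Fin.castLE_injective _ h6
      exact Fin.natAdd_injective _ _ h7
    have := Fintype.card_le_of_injective j hinj
    simp at this

/-- the chain of facets: all vertices lie outside the facets 0, 12, 13, 14, 15, 16, whose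
complements meet the complement of the facet 0 -/
lemma chain : (∀ i : Fin 17, inc i 0 = false ∨ inc i 12 = false ∨ inc i 13 = false ∨
    inc i 14 = false ∨ inc i 15 = false ∨ inc i 16 = false) ∧
    inc 2 0 = false ∧ inc 3 0 = false ∧ inc 2 12 = false ∧ inc 2 13 = false ∧
    inc 3 14 = false ∧ inc 3 15 = false ∧ inc 3 16 = false := by decide +kernel

theorem not_join : ¬ IsFreeJoin P := by
  intro h
  obtain ⟨χ, ⟨v, hv, hχ⟩, ⟨w, hw, hχ'⟩, hall⟩ := h.coloring isPoly_P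
  have hF : ∀ k : Fin 17, (∀ i, inc i k = false → χ (vertOf i)) ∨
      (∀ i, inc i k = false → ¬ χ (vertOf i)) := by
    intro k
    rcases hall (facetOf k).1 (facetOf k).2.1 (facetOf k).2.2.1 (facetOf k).2.2.2 with h1 | h1
    · left
      intro i hi
      apply h1 _ (vertOf i).2
      rw [mem_iff, hi]
      exact Bool.false_ne_true
    · right
      intro i hi
      apply h1 _ (vertOf i).2
      rw [mem_iff, hi]
      exact Bool.false_ne_true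
  obtain ⟨c1, c2, c3, c4, c5, c6, c7, c8⟩ := chain
  have hsame : (∀ i, χ (vertOf i)) ∨ (∀ i, ¬ χ (vertOf i)) := by
    rcases hF 0 with h0 | h0
    · left
      have k12 : ∀ i, inc i 12 = false → χ (vertOf i) := by
        rcases hF 12 with h1 | h1
        · exact h1
        · exact absurd (h0 2 c2) (h1 2 c4)
      have k13 : ∀ i, inc i 13 = false → χ (vertOf i) := by
        rcases hF 13 with h1 | h1
        · exact h1
        · exact absurd (h0 2 c2) (h1 2 c5)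
      have k14 : ∀ i, inc i 14 = false → χ (vertOf i) := by
        rcases hF 14 with h1 | h1
        · exact h1
        · exact absurd (h0 3 c3) (h1 3 c6)
      have k15 : ∀ i, inc i 15 = false → χ (vertOf i) := by
        rcases hF 15 with h1 | h1
        · exact h1
        · exact absurd (h0 3 c3) (h1 3 c7)
      have k16 : ∀ i, inc i 16 = false → χ (vertOf i) := by
        rcases hF 16 with h1 | h1
        · exact h1
        · exact absurd (h0 3 c3) (h1 3 c8)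
      intro i
      rcases c1 i with h1 | h1 | h1 | h1 | h1 | h1
      · exact h0 i h1
      · exact k12 i h1
      · exact k13 i h1
      · exact k14 i h1
      · exact k15 i h1
      · exact k16 i h1
    · right
      have k12 : ∀ i, inc i 12 = false → ¬ χ (vertOf i) := by
        rcases hF 12 with h1 | h1
        · exact absurd (h1 2 c4) (h0 2 c2)
        · exact h1
      have k13 : ∀ i, inc i 13 = false → ¬ χ (vertOf i) := by
        rcases hF 13 with h1 | h1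
        · exact absurd (h1 2 c5) (h0 2 c2)
        · exact h1
      have k14 : ∀ i, inc i 14 = false → ¬ χ (vertOf i) := by
        rcases hF 14 with h1 | h1
        · exact absurd (h1 3 c6) (h0 3 c3)
        · exact h1
      have k15 : ∀ i, inc i 15 = false → ¬ χ (vertOf i) := by
        rcases hF 15 with h1 | h1
        · exact absurd (h1 3 c7) (h0 3 c3)
        · exact h1
      have k16 : ∀ i, inc i 16 = false → ¬ χ (vertOf i) := by
        rcases hF 16 with h1 | h1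
        · exact absurd (h1 3 c8) (h0 3 c3)
        · exact h1
      intro i
      rcases c1 i with h1 | h1 | h1 | h1 | h1 | h1
      · exact h0 i h1
      · exact k12 i h1
      · exact k13 i h1
      · exact k14 i h1
      · exact k15 i h1
      · exact k16 i h1
  obtain ⟨i, hi⟩ := vertOf_surj ⟨v, hv⟩
  obtain ⟨j, hj⟩ := vertOf_surj ⟨w, hw⟩
  have hi' : v = (vertOf i : Fin 7 → ℝ) := congrArg Subtype.val hi
  have hj' : w = (vertOf j : Fin 7 → ℝ) := congrArg Subtype.val hj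
  rcases hsame with h1 | h1
  · exact hχ' (by rw [hj']; exact h1 j)
  · exact h1 i (by rw [← hi']; exact hχ)

/-- **There is a 7-dimensional polytope without vertex-facet assignment which is not a free
join.** -/
theorem result : ∃ P : Set (Fin 7 → ℝ), IsPoly P ∧ dim P = 7 ∧ ¬ HasAssignment P ∧
    ¬ IsFreeJoin P :=
  ⟨P, isPoly_P, dim_P, no_assignment, not_join⟩

end Pool.Agent.Results.MP_7ca032_co.NotAJoin
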